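import Pool.Agent.Lib.MP_003e01_gt.Main

open Pool.Agent.Lib.MP_003e01_gt

namespace Pool.Agent.Results.MP_003e01_gt.AllPseudoAnosov

/-- A genus five Heegaard splitting with an automorphism that is nontrivial on the surface, such
that every automorphism preserving the two sides is, on the surface, homotopic to the identity or
neither periodic nor reducible. -/
theorem result :
    ∃ (M : Type) (_ : TopologicalSpace M) (_ : T2Space M) (_ : CompactSpace M)
      (_ : ChartedSpace (EuclideanSpace ℝ (Fin 3)) M) (A B : Set M), IsHeegaardSplitting 5 A B ∧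
      (∃ f, IsRestrictedAut A B f ∧ ¬ f.Homotopic (ContinuousMap.id _)) ∧
      ∀ f, IsRestrictedAut A B f →
        f.Homotopic (ContinuousMap.id _) ∨ (¬ IsPeriodic f ∧ ¬ IsReducible f) :=
  main

end Pool.Agent.Results.MP_003e01_gt.AllPseudoAnosov
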